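import Pool.Agent.UL4.Stmts
import Pool.Agent.Helper23_UL3.PLN
import Pool.Agent.Helper77_UL3.PAA
import Pool.Agent.Helper3_UL3.PAB
import Pool.Agent.Helper75_UL3.PAC
import Pool.Agent.Helper34_UL3.FUB

/-!
# Squad UL4 (MP_c7c9bf_co): row GDB, a body in the standard position is good
-/

set_option autoImplicit false

namespace Pool.Agent.UL4.H88

open MeasureTheory Set Pool.Agent.UL3

/-- Enlarging an admissible lattice. -/
theorem adm2_smul {M : Set (ℝ × ℝ)} (hM : PB M) {a b : ℝ × ℝ} (h : Adm2 M a b) {c : ℝ}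
    (hc : 1 ≤ c) : Adm2 M (c • a) (c • b) := by
  intro m n hmn hmem
  apply h m n hmn
  have h0 : (0 : ℝ × ℝ) ∈ interior M := hM.zero_mem
  have hcv : Convex ℝ (interior M) := hM.cvx.interior
  have hcpos : 0 < c := by linarith
  have h1 := hcv hmem h0 (a := 1 / c) (b := 1 - 1 / c) (by positivity)
    (by
      have : 1 / c ≤ 1 := by
        rw [div_le_one hcpos]
        exact hc
      linarith) (by ring)
  have h2 : (1 / c : ℝ) • ((m : ℝ) • c • a + (n : ℝ) • c • b) + (1 - 1 / c) • (0 : ℝ × ℝ)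
      = (m : ℝ) • a + (n : ℝ) • b := by
    refine Prod.ext ?_ ?_
    · simp only [Prod.fst_add, Prod.smul_fst, smul_eq_mul, Prod.fst_zero, mul_zero, add_zero]
      field_simp
    · simp only [Prod.snd_add, Prod.smul_snd, smul_eq_mul, Prod.snd_zero, mul_zero, add_zero]
      field_simp
  rwa [h2] at h1

/-- The integral over the support. -/
theorem int_supp {φ : ℝ → ℝ} {w : ℝ} (hw : 0 ≤ w) (hz : ∀ t, t ∉ Icc 0 w → φ t = 0) :
    ∫ t in (0 : ℝ)..w, φ t = ∫ t, φ t := by
  rw [intervalIntegral.integral_of_le hw, ← integral_Icc_eq_integral_Ioc]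
  exact setIntegral_eq_integral_of_forall_compl_eq_zero hz

theorem gdb (hscg : ScgStmt) (hccg : CcgStmt) (hcng : CngStmt) (hrsc : RscStmt) (hdfc : DfcStmt)
    (hdsj : DsjStmt) (hone : OneStmt) (hstg : StgStmt) : GdbStmt := by
  intro K w hK hH
  have hpln : PlnStmt := H23.pln H77.paa (H3.pab H77.paa) H75.pac
  obtain ⟨-, -, hemp, hV⟩ := hscg K w hK hH
  have hcc := hccg K w hK hH
  have hct := hcng K w hK hH
  have hw := hH.pos
  obtain ⟨-, hfu, -⟩ := H34.fub K hK.cpt
  have hpos : ∀ t, 0 ≤ al K t := fun t => measureReal_nonneg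
  have hzero : ∀ t, t ∉ Icc 0 w → al K t = 0 := by
    intro t ht
    unfold al
    rw [hemp t ht]
    exact measureReal_empty
  have hint1 : ∫ t in (0 : ℝ)..w, al K t = V K := by
    rw [int_supp hw.le hzero]
    have h1 := (hfu (fun _ => 1) continuous_const).2
    simp only [one_mul] at h1
    rw [← h1, setIntegral_const, smul_eq_mul, mul_one]
    rfl
  have hint2 : ∫ t in (0 : ℝ)..w, al K t ^ 2 = ∫ t, al K t ^ 2 :=
    int_supp hw.le (fun t ht => by
      show al K t ^ 2 = 0
      rw [hzero t ht]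
      norm_num)
  obtain ⟨Q, hQ⟩ : ∃ Q : ℝ, Q = ∫ t, al K t ^ 2 := ⟨_, rfl⟩
  have hwV : 0 < w / V K := div_pos hw hV
  -- the profile
  set F : ℝ → ℝ := fun τ => Real.sqrt (w / V K) * Real.sqrt (al K (w * τ)) with hF
  have hFsq : ∀ τ, F τ ^ 2 = w / V K * al K (w * τ) := by
    intro τ
    simp only [hF]
    rw [mul_pow, Real.sq_sqrt hwV.le, Real.sq_sqrt (hpos _)]
  have hFnn : ∀ τ ∈ Icc (0 : ℝ) 1, 0 ≤ F τ := fun τ _ =>
    mul_nonneg (Real.sqrt_nonneg _) (Real.sqrt_nonneg _)
  have hmaps : ∀ τ ∈ Icc (0 : ℝ) 1, w * τ ∈ Icc 0 w := by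
    intro τ hτ
    refine ⟨mul_nonneg hw.le hτ.1, ?_⟩
    calc w * τ ≤ w * 1 := mul_le_mul_of_nonneg_left hτ.2 hw.le
      _ = w := mul_one w
  have hFc : ContinuousOn F (Icc 0 1) := by
    apply continuousOn_const.mul
    exact hct.comp (f := fun τ : ℝ => w * τ) (by fun_prop) hmaps
  have hFcc : ConcaveOn ℝ (Icc 0 1) F := by
    refine ⟨convex_Icc _ _, ?_⟩
    intro p hp q hq a b ha hb hab
    have h1 := hcc.2 (hmaps p hp) (hmaps q hq) ha hb hab
    simp only [smul_eq_mul] at h1 ⊢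
    have h2 : a * (w * p) + b * (w * q) = w * (a * p + b * q) := by ring
    rw [h2] at h1
    have h3 := mul_le_mul_of_nonneg_left h1 (Real.sqrt_nonneg (w / V K))
    simp only [hF]
    linarith
  have hI2 : ∫ t in (0 : ℝ)..1, F t ^ 2 = 1 := by
    have h1 : ∫ t in (0 : ℝ)..1, F t ^ 2 = ∫ t in (0 : ℝ)..1, (fun u => w / V K * al K u) (w * t) :=
      intervalIntegral.integral_congr fun t _ => hFsq t
    rw [h1, intervalIntegral.integral_comp_mul_left (fun u => w / V K * al K u) hw.ne', mul_zero,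
      mul_one, intervalIntegral.integral_const_mul, hint1, smul_eq_mul]
    field_simp
  have hI4 : ∫ t in (0 : ℝ)..1, F t ^ 4 = w / V K ^ 2 * Q := by
    have h1 : ∫ t in (0 : ℝ)..1, F t ^ 4 =
        ∫ t in (0 : ℝ)..1, (fun u => (w / V K) ^ 2 * al K u ^ 2) (w * t) := by
      refine intervalIntegral.integral_congr fun t _ => ?_
      show F t ^ 4 = (w / V K) ^ 2 * al K (w * t) ^ 2
      rw [← mul_pow, ← hFsq]
      ring
    rw [h1, intervalIntegral.integral_comp_mul_left (fun u => (w / V K) ^ 2 * al K u ^ 2) hw.ne',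
      mul_zero, mul_one, intervalIntegral.integral_const_mul, hint2, ← hQ, smul_eq_mul]
    field_simp
  obtain ⟨x, y, s, hx1, hx2, hy, hxy, hs0, hsx, hTy, hFs, hFsx⟩ := hone F hFc hFcc hFnn hI2
  rw [hI4] at hTy
  -- the lattice of the plane
  obtain ⟨-, hPB, har⟩ := hdfc K hK
  obtain ⟨-, hrs⟩ := hrsc K hK
  obtain ⟨a, b, hadm, hcr, hle⟩ := hpln (hdif K) hPB
  have hle' : 2 * Real.sqrt 3 * cr a b ≤ ar (hdif K) := hle
  rw [har, ← hQ] at hrs
  have h3 : (0 : ℝ) < Real.sqrt 3 := Real.sqrt_pos.mpr (by norm_num)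
  set G : ℝ := y * V K / w with hG
  have hGpos : 0 < G := by positivity
  have hcrG : cr a b ≤ G := by
    have e1 : V K * (4 * (2 * Real.sqrt 3 * cr a b)) ≤ 10 * Q := by
      refine le_trans ?_ hrs
      exact mul_le_mul_of_nonneg_left (by linarith) hV.le
    have e2 : 5 / (4 * Real.sqrt 3) * (w / V K ^ 2 * Q) * (V K / w) ≤ y * (V K / w) :=
      mul_le_mul_of_nonneg_right hTy (by positivity)
    have e3 : 5 / (4 * Real.sqrt 3) * (w / V K ^ 2 * Q) * (V K / w) =
        10 * Q / (8 * Real.sqrt 3 * V K) := by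
      field_simp
      ring
    have e4 : cr a b ≤ 10 * Q / (8 * Real.sqrt 3 * V K) := by
      rw [le_div_iff₀ (by positivity)]
      linarith
    have e5 : y * (V K / w) = G := by
      rw [hG]
      ring
    rw [← e5]
    rw [e3] at e2
    exact e4.trans e2
  set c := Real.sqrt (G / cr a b) with hc
  have hr1 : 1 ≤ G / cr a b := by
    rw [le_div_iff₀ hcr]
    linarith
  have hc1 : 1 ≤ c := by
    rw [hc]
    exact Real.one_le_sqrt.mpr hr1
  have hcsq : c * c = G / cr a b := Real.mul_self_sqrt (by linarith)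
  have hcr' : cr (c • a) (c • b) = G := by
    have : cr (c • a) (c • b) = c * c * cr a b := by
      simp only [cr, Prod.smul_fst, Prod.smul_snd, smul_eq_mul]
      ring
    rw [this, hcsq]
    field_simp
  have hadm' : Adm2 (hdif K) (c • a) (c • b) := adm2_smul hPB hadm hc1
  have hd := hdsj K hK (c • a) (c • b) hadm'
  have hyG : ∀ τ, F τ ^ 2 < y → al K (w * τ) < G := by
    intro τ hτ
    rw [hFsq] at hτ
    rw [hG, lt_div_iff₀ hw]
    have h1 : w / V K * al K (w * τ) * V K < y * V K := mul_lt_mul_of_pos_right hτ hV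
    have h2 : w / V K * al K (w * τ) * V K = al K (w * τ) * w := by
      field_simp
    linarith
  obtain ⟨v, z, hv1, hv2, hv3, hv4⟩ := hstg K w hK hH (c • a) (c • b) (x * w) (s * w)
    (by rw [hcr']; exact hGpos) hd (by nlinarith) (by positivity)
    (mul_lt_mul_of_pos_right hsx hw)
    (by
      rw [hcr', mul_comm s w]
      exact hyG s hFs)
    (by
      rw [hcr']
      rcases le_or_gt (s + x) 1 with h | h
      · have e : s * w + x * w = w * (s + x) := by ring
        rw [e]
        exact hyG _ (hFsx h)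
      · rw [hzero]
        · exact hGpos
        · intro hmem
          have := hmem.2
          nlinarith)
  refine ⟨v, z, hv1, hv2, hv3, ?_⟩
  rw [hv4, hcr', hG]
  apply le_of_eq
  have : y * V K / w * (x * w) = (x * y) * V K := by
    field_simp
  rw [this, hxy]

end Pool.Agent.UL4.H88
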